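import Pool.Agent.D0H44.EM.Stm
import Pool.Agent.D0H44.EL.CS

/-! Project EM: duality (helper52). -/

set_option autoImplicit false

open Finset MeasureTheory

namespace Pool.Agent.D0H52.EM

open H343 (ex)
open Pool.Agent.D0H44.EM
open Pool.Agent.D0H44.EL

theorem Er_meas (q a : ℕ) : Measurable (Er q a) := by
  unfold Er ps
  apply Measurable.sub
  · exact (measurable_from_nat (f := fun k : ℕ => ∑ n ∈ (Icc 1 k).filter (fun n => n ≡ a [MOD q]),
      ArithmeticFunction.vonMangoldt n)).comp Nat.measurable_floor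
  · exact measurable_id.div_const _

theorem Er_bound (q a : ℕ) (hq : 1 ≤ q) (Y x : ℝ) (hx : 0 ≤ x) (hxY : x ≤ Y) :
    |Er q a x| ≤ (∑ n ∈ Icc 1 ⌊Y⌋₊, ArithmeticFunction.vonMangoldt n) + Y := by
  unfold Er ps
  have h1 : 0 ≤ ∑ n ∈ (Icc 1 ⌊x⌋₊).filter (fun n => n ≡ a [MOD q]),
      ArithmeticFunction.vonMangoldt n :=
    sum_nonneg fun _ _ => ArithmeticFunction.vonMangoldt_nonneg
  have h2 : ∑ n ∈ (Icc 1 ⌊x⌋₊).filter (fun n => n ≡ a [MOD q]),
      ArithmeticFunction.vonMangoldt n ≤ ∑ n ∈ Icc 1 ⌊Y⌋₊, ArithmeticFunction.vonMangoldt n := by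
    apply sum_le_sum_of_subset_of_nonneg
    · refine (filter_subset _ _).trans (Icc_subset_Icc le_rfl (Nat.floor_le_floor hxY))
    · intro _ _ _
      exact ArithmeticFunction.vonMangoldt_nonneg
  have h3 : (1 : ℝ) ≤ (Nat.totient q : ℝ) := by
    exact_mod_cast Nat.totient_pos.2 hq
  have h4 : x / (Nat.totient q : ℝ) ≤ Y := by
    rw [div_le_iff₀ (by linarith)]
    nlinarith
  have h5 : 0 ≤ x / (Nat.totient q : ℝ) := by positivity
  rw [abs_le]
  constructor <;> linarith

theorem kd_meas (m D : ℝ) : Measurable (kd m D) := by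
  unfold kd
  refine Measurable.ite measurableSet_Iio measurable_const ?_
  refine Measurable.ite measurableSet_Iic measurable_const ?_
  exact Measurable.ite measurableSet_Iic measurable_const measurable_const

theorem kd_bound (m D x : ℝ) (hD : 0 < D) : |kd m D x| ≤ 1 / D := by
  have h : 0 < 1 / D := by positivity
  unfold kd
  split_ifs
  · rw [abs_zero]; exact h.le
  · rw [abs_of_pos h]
  · rw [abs_neg, abs_of_pos h]
  · rw [abs_zero]; exact h.le

theorem ex_c (N : ℝ) : Continuous (fun x : ℝ => ex (x / N)) := by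
  unfold H343.ex
  fun_prop

theorem gd_meas (m D : ℝ) (N : ℕ) : Measurable (gd m D N) := by
  unfold gd
  apply Measurable.add
  · exact (Complex.measurable_ofReal.comp (kd_meas m D)).mul (ex_c N).measurable
  · apply Measurable.mul
    · exact Complex.measurable_ofReal.comp (kt_cont m D).measurable
    · exact ((ex_c N).measurable.const_mul _)

theorem gd_bound (m D : ℝ) (hD : 0 < D) (N : ℕ) (x : ℝ) :
    ‖gd m D N x‖ ≤ 1 / D + 2 * Real.pi / N := by
  unfold gd
  refine (norm_add_le _ _).trans ?_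
  rw [norm_mul, norm_mul, H343.Gauss.norm_ex, mul_one, Complex.norm_real, Complex.norm_real,
    Real.norm_eq_abs, Real.norm_eq_abs, norm_mul, norm_mul, H343.Gauss.norm_ex, mul_one,
    Complex.norm_I, mul_one, Complex.norm_real, Real.norm_eq_abs,
    abs_of_nonneg (kt_nonneg m D x hD), abs_of_nonneg (by positivity : 0 ≤ 2 * Real.pi / (N : ℝ))]
  have h1 := kd_bound m D x hD
  have h2 := kt_le_one m D x hD
  have h3 : kt m D x * (2 * Real.pi / N) ≤ 1 * (2 * Real.pi / N) := by
    apply mul_le_mul_of_nonneg_right h2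
    positivity
  linarith

theorem dua (hN : S_NRM) : S_DUA := by
  intro q G R c m D X hq hR hG hc hD hm hX
  have hq0 : (0 : ℝ) < q := by exact_mod_cast hq
  have hR0 : (0 : ℝ) < R := by exact_mod_cast hR
  have hX0 : 0 ≤ X := by linarith
  have hle : m - D ≤ m + D := by linarith
  -- phases
  set b : ℕ → ℂ := fun r => (starRingEnd ℂ) (J m D q r (c r)) / ‖J m D q r (c r)‖ with hb
  have hb1 : ∀ r, ‖b r‖ ≤ 1 := by
    intro r
    rw [hb]
    simp only
    rw [norm_div, RCLike.norm_conj, Complex.norm_real, norm_norm]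
    exact div_self_le_one _
  have hb2 : ∀ r, b r * J m D q r (c r) = (‖J m D q r (c r)‖ : ℂ) := by
    intro r
    rw [hb]
    simp only
    by_cases h0 : J m D q r (c r) = 0
    · rw [h0]; simp
    · have : (‖J m D q r (c r)‖ : ℂ) ≠ 0 := by
        exact_mod_cast (norm_ne_zero_iff.2 h0)
      rw [div_mul_eq_mul_div, Complex.conj_mul', sq, mul_div_assoc, div_self this, mul_one]
  set s : Set ℝ := Set.Ioc (m - D) (m + D) with hs
  set K : ℝ := (∑ n ∈ Icc 1 ⌊m + D⌋₊, ArithmeticFunction.vonMangoldt n) + (m + D) with hK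
  have hKb : ∀ a, ∀ x ∈ s, |Er q a x| ≤ K := fun a x hx =>
    Er_bound q a hq (m + D) x (hm.trans hx.1.le) hx.2
  have hfin : volume s ≠ ⊤ := measure_Ioc_lt_top.ne
  -- the functions
  set F : ℕ → ℝ → ℂ := fun a x => ∑ r ∈ G, b r * (ex (((a * c r : ℕ) : ℝ) / q) * gd m D (r * q) x)
    with hF
  set P : ℕ → ℝ → ℂ := fun a x =>
    ∑ r ∈ G, b r * (ex (((a * c r : ℕ) : ℝ) / q) * ex (x / ((r * q : ℕ) : ℝ))) with hP
  set P' : ℕ → ℝ → ℂ := fun a x =>
    ∑ r ∈ G, (b r * ((R : ℂ) / r)) * (ex (((a * c r : ℕ) : ℝ) / q) * ex (x / ((r * q : ℕ) : ℝ))) with hP'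
  have hPc : ∀ a, Continuous (P a) := by
    intro a
    rw [hP]
    apply continuous_finsetSum
    intro r _
    exact continuous_const.mul (continuous_const.mul (ex_c _))
  have hPc' : ∀ a, Continuous (P' a) := by
    intro a
    rw [hP']
    apply continuous_finsetSum
    intro r _
    exact continuous_const.mul (continuous_const.mul (ex_c _))
  have hFm : ∀ a, Measurable (F a) := by
    intro a
    rw [hF]
    apply Finset.measurable_fun_sum
    intro r _
    exact ((gd_meas m D (r * q)).const_mul _).const_mul _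
  have hFeq : ∀ a x, F a x = ((kd m D x : ℝ) : ℂ) * P a x +
      ((kt m D x : ℝ) : ℂ) * (((2 * Real.pi / (R * q) : ℝ) : ℂ) * Complex.I * P' a x) := by
    intro a x
    rw [hF, hP, hP']
    simp only
    rw [mul_sum, mul_sum, mul_sum, ← sum_add_distrib]
    apply sum_congr rfl
    intro r hr
    have hr0 : (r : ℂ) ≠ 0 := by
      have := (hG r hr).1
      exact_mod_cast (by omega : r ≠ 0)
    have hRc : (R : ℂ) ≠ 0 := by exact_mod_cast hR0.ne'
    have hqc : (q : ℂ) ≠ 0 := by exact_mod_cast hq0.ne'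
    unfold gd
    push_cast
    field_simp
  have hFb : ∀ a x, ‖F a x‖ ^ 2 ≤ 2 / D ^ 2 * ‖P a x‖ ^ 2 + 80 / ((R : ℝ) * q) ^ 2 * ‖P' a x‖ ^ 2 := by
    intro a x
    rw [hFeq]
    have h1 : ‖((kd m D x : ℝ) : ℂ) * P a x‖ ≤ 1 / D * ‖P a x‖ := by
      rw [norm_mul, Complex.norm_real, Real.norm_eq_abs]
      exact mul_le_mul_of_nonneg_right (kd_bound m D x hD) (norm_nonneg _)
    have h2 : ‖((kt m D x : ℝ) : ℂ) * (((2 * Real.pi / (R * q) : ℝ) : ℂ) * Complex.I * P' a x)‖ ≤
        2 * Real.pi / (R * q) * ‖P' a x‖ := by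
      rw [norm_mul, norm_mul, norm_mul, Complex.norm_I, mul_one, Complex.norm_real,
        Complex.norm_real, Real.norm_eq_abs, Real.norm_eq_abs,
        abs_of_nonneg (kt_nonneg m D x hD), abs_of_nonneg (by positivity : 0 ≤ 2 * Real.pi / (R * q : ℝ))]
      have h3 := kt_le_one m D x hD
      calc kt m D x * (2 * Real.pi / (R * q) * ‖P' a x‖) ≤ 1 * (2 * Real.pi / (R * q) * ‖P' a x‖) := by
            apply mul_le_mul_of_nonneg_right h3
            positivity
        _ = _ := one_mul _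
    have h4 := norm_add_le (((kd m D x : ℝ) : ℂ) * P a x)
      (((kt m D x : ℝ) : ℂ) * (((2 * Real.pi / (R * q) : ℝ) : ℂ) * Complex.I * P' a x))
    have h5 : ‖((kd m D x : ℝ) : ℂ) * P a x +
      ((kt m D x : ℝ) : ℂ) * (((2 * Real.pi / (R * q) : ℝ) : ℂ) * Complex.I * P' a x)‖ ≤
      1 / D * ‖P a x‖ + 2 * Real.pi / (R * q) * ‖P' a x‖ := by linarith
    have h6 : (1 / D * ‖P a x‖ + 2 * Real.pi / (R * q) * ‖P' a x‖) ^ 2 ≤
        2 * (1 / D * ‖P a x‖) ^ 2 + 2 * (2 * Real.pi / (R * q) * ‖P' a x‖) ^ 2 := by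
      nlinarith [sq_nonneg (1 / D * ‖P a x‖ - 2 * Real.pi / (R * q) * ‖P' a x‖)]
    have h7 : 2 * (2 * Real.pi / (R * q) * ‖P' a x‖) ^ 2 ≤ 80 / ((R : ℝ) * q) ^ 2 * ‖P' a x‖ ^ 2 := by
      have hpi : Real.pi ^ 2 ≤ 10 := by
        have h8 := Real.pi_lt_d2
        have h9 := Real.pi_pos
        nlinarith
      have e : 2 * (2 * Real.pi / (R * q) * ‖P' a x‖) ^ 2 =
          (8 * Real.pi ^ 2) / ((R : ℝ) * q) ^ 2 * ‖P' a x‖ ^ 2 := by ring
      rw [e]
      apply mul_le_mul_of_nonneg_right _ (by positivity)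
      apply div_le_div_of_nonneg_right _ (by positivity)
      linarith
    have h8 : 2 * (1 / D * ‖P a x‖) ^ 2 = 2 / D ^ 2 * ‖P a x‖ ^ 2 := by ring
    calc _ ≤ (1 / D * ‖P a x‖ + 2 * Real.pi / (R * q) * ‖P' a x‖) ^ 2 := by
          gcongr
      _ ≤ _ := by linarith
  -- integrability
  obtain ⟨KF, hKF⟩ : ∃ KF : ℝ, ∀ a x, ‖F a x‖ ≤ KF := by
    refine ⟨∑ r ∈ G, (1 / D + 2 * Real.pi / ((r * q : ℕ) : ℝ)), fun a x => ?_⟩
    rw [hF]
    refine (norm_sum_le _ _).trans (sum_le_sum fun r _ => ?_)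
    rw [norm_mul, norm_mul, H343.Gauss.norm_ex, one_mul]
    have h1 := gd_bound m D hD (r * q) x
    calc ‖b r‖ * ‖gd m D (r * q) x‖ ≤ 1 * ‖gd m D (r * q) x‖ :=
          mul_le_mul_of_nonneg_right (hb1 r) (norm_nonneg _)
      _ ≤ _ := by rw [one_mul]; exact h1
  have hK0 : 0 ≤ K := by
    have h1 : 0 ≤ ∑ n ∈ Icc 1 ⌊m + D⌋₊, ArithmeticFunction.vonMangoldt n :=
      sum_nonneg fun _ _ => ArithmeticFunction.vonMangoldt_nonneg
    have h2 : 0 ≤ m + D := by linarith
    rw [hK]
    linarith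
  have hEr2 : ∀ a, IntegrableOn (fun x => Er q a x ^ 2) s := by
    intro a
    refine Measure.integrableOn_of_bounded (M := K ^ 2) hfin
      ((Er_meas q a).pow_const 2).aestronglyMeasurable ?_
    rw [ae_restrict_iff' measurableSet_Ioc]
    refine Filter.Eventually.of_forall fun y hy => ?_
    rw [Real.norm_eq_abs, abs_pow]
    have := hKb a y hy
    gcongr
  have hF2 : ∀ a, IntegrableOn (fun x => ‖F a x‖ ^ 2) s := by
    intro a
    refine Measure.integrableOn_of_bounded (M := KF ^ 2) hfin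
      (((hFm a).norm).pow_const 2).aestronglyMeasurable ?_
    refine Filter.Eventually.of_forall fun y => ?_
    rw [Real.norm_eq_abs, abs_pow, abs_norm]
    have := hKF a y
    gcongr
  have hEF : ∀ a, IntegrableOn (fun x => |Er q a x| * ‖F a x‖) s := by
    intro a
    refine Measure.integrableOn_of_bounded (M := K * KF) hfin
      ((continuous_abs.measurable.comp (Er_meas q a)).mul (hFm a).norm).aestronglyMeasurable ?_
    rw [ae_restrict_iff' measurableSet_Ioc]
    refine Filter.Eventually.of_forall fun y hy => ?_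
    rw [norm_mul, Real.norm_eq_abs, abs_abs, norm_norm]
    exact mul_le_mul (hKb a y hy) (hKF a y) (norm_nonneg _) hK0
  have hEg : ∀ a r, IntegrableOn (fun x => ((Er q a x : ℝ) : ℂ) *
      (ex (((a * c r : ℕ) : ℝ) / q) * gd m D (r * q) x)) s := by
    intro a r
    refine Measure.integrableOn_of_bounded (M := K * (1 / D + 2 * Real.pi / ((r * q : ℕ) : ℝ))) hfin
      ((Complex.measurable_ofReal.comp (Er_meas q a)).mul
        ((gd_meas m D (r * q)).const_mul _)).aestronglyMeasurable ?_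
    rw [ae_restrict_iff' measurableSet_Ioc]
    refine Filter.Eventually.of_forall fun y hy => ?_
    rw [norm_mul, Complex.norm_real, Real.norm_eq_abs, norm_mul, H343.Gauss.norm_ex, one_mul]
    exact mul_le_mul (hKb a y hy) (gd_bound m D hD (r * q) y) (norm_nonneg _) hK0
  -- the sum as an integral
  have hS : ((∑ r ∈ G, ‖J m D q r (c r)‖ : ℝ) : ℂ) =
      ∑ a ∈ red q, ∫ x in s, ((Er q a x : ℝ) : ℂ) * F a x := by
    push_cast
    calc ∑ r ∈ G, (‖J m D q r (c r)‖ : ℂ) = ∑ r ∈ G, b r * J m D q r (c r) :=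
          sum_congr rfl fun r _ => (hb2 r).symm
      _ = ∑ r ∈ G, ∑ a ∈ red q, ∫ x in s, b r * (((Er q a x : ℝ) : ℂ) *
            (ex (((a * c r : ℕ) : ℝ) / q) * gd m D (r * q) x)) := by
          apply sum_congr rfl
          intro r _
          unfold J
          rw [mul_sum]
          apply sum_congr rfl
          intro a _
          rw [intervalIntegral.integral_of_le hle, integral_const_mul]
      _ = ∑ a ∈ red q, ∑ r ∈ G, ∫ x in s, b r * (((Er q a x : ℝ) : ℂ) *
            (ex (((a * c r : ℕ) : ℝ) / q) * gd m D (r * q) x)) := sum_comm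
      _ = _ := by
          apply sum_congr rfl
          intro a _
          rw [← integral_finsetSum]
          · apply integral_congr_ae
            refine Filter.Eventually.of_forall fun x => ?_
            simp only
            rw [hF]
            simp only
            rw [mul_sum]
            apply sum_congr rfl
            intro r _
            ring
          · intro r _
            exact (hEg a r).const_mul _
  set S : ℝ := ∑ r ∈ G, ‖J m D q r (c r)‖ with hSdef
  have hS1 : S ≤ ∑ a ∈ red q, ∫ x in s, |Er q a x| * ‖F a x‖ := by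
    calc S ≤ ‖((S : ℝ) : ℂ)‖ := by rw [Complex.norm_real]; exact le_abs_self _
      _ ≤ ∑ a ∈ red q, ‖∫ x in s, ((Er q a x : ℝ) : ℂ) * F a x‖ := by
          rw [hS]
          exact norm_sum_le _ _
      _ ≤ _ := by
          apply sum_le_sum
          intro a _
          refine (norm_integral_le_integral_norm _).trans (le_of_eq ?_)
          apply integral_congr_ae
          refine Filter.Eventually.of_forall fun x => ?_
          simp only
          rw [norm_mul, Complex.norm_real, Real.norm_eq_abs]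
  set A : ℝ := ∑ a ∈ red q, ∫ x in (m - D)..(m + D), Er q a x ^ 2 with hA
  have hAs : A = ∑ a ∈ red q, ∫ x in s, Er q a x ^ 2 := by
    rw [hA]
    apply sum_congr rfl
    intro a _
    rw [intervalIntegral.integral_of_le hle]
  have hA0 : 0 ≤ A := by
    rw [hAs]
    apply sum_nonneg
    intro a _
    apply integral_nonneg
    intro x
    positivity
  set B0 : ℝ := q * (G.card * (X + G.card * (4 * (R : ℝ) ^ 2))) with hB0
  have hB00 : 0 ≤ B0 := by positivity
  have hred : red q ⊆ range q := filter_subset _ _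
  have hsub : s ⊆ Set.Ioc 0 X := Set.Ioc_subset_Ioc hm hX
  have hPint : ∀ (T : ℕ → ℝ → ℂ), (∀ a, Continuous (T a)) →
      ∑ a ∈ range q, ∫ x in (0 : ℝ)..X, ‖T a x‖ ^ 2 ≤ B0 →
      ∑ a ∈ red q, ∫ x in s, ‖T a x‖ ^ 2 ≤ B0 := by
    intro T hT hle'
    refine le_trans ?_ hle'
    calc ∑ a ∈ red q, ∫ x in s, ‖T a x‖ ^ 2 ≤ ∑ a ∈ red q, ∫ x in (0 : ℝ)..X, ‖T a x‖ ^ 2 := by
          apply sum_le_sum
          intro a _
          rw [intervalIntegral.integral_of_le hX0]
          apply setIntegral_mono_set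
          · exact (((hT a).norm.pow 2).continuousOn.integrableOn_Icc).mono_set Set.Ioc_subset_Icc_self
          · exact Filter.Eventually.of_forall fun x => by positivity
          · exact hsub.eventuallyLE
      _ ≤ _ := by
          apply sum_le_sum_of_subset_of_nonneg hred
          intro a _ _
          apply intervalIntegral.integral_nonneg hX0
          intro x _
          positivity
  have hPb : ∑ a ∈ red q, ∫ x in s, ‖P a x‖ ^ 2 ≤ B0 :=
    hPint P hPc (hN q G R c b X hq hG hc (fun r _ => hb1 r) hX0)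
  have hPb' : ∑ a ∈ red q, ∫ x in s, ‖P' a x‖ ^ 2 ≤ B0 := by
    refine hPint P' hPc' (hN q G R c (fun r => b r * ((R : ℂ) / r)) X hq hG hc (fun r hr => ?_) hX0)
    have hr := hG r hr
    have hr0 : (0 : ℝ) < r := by exact_mod_cast (by omega : 0 < r)
    rw [norm_mul, norm_div (R : ℂ) (r : ℂ), Complex.norm_natCast, Complex.norm_natCast]
    have h1 : (R : ℝ) / r ≤ 1 := by
      rw [div_le_one hr0]
      exact_mod_cast hr.1.le
    exact mul_le_one₀ (hb1 r) (by positivity) h1
  have hPi : ∀ a, IntegrableOn (fun x => ‖P a x‖ ^ 2) s := fun a =>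
    (((hPc a).norm.pow 2).continuousOn.integrableOn_Icc).mono_set Set.Ioc_subset_Icc_self
  have hPi' : ∀ a, IntegrableOn (fun x => ‖P' a x‖ ^ 2) s := fun a =>
    (((hPc' a).norm.pow 2).continuousOn.integrableOn_Icc).mono_set Set.Ioc_subset_Icc_self
  set cf : ℝ := 2 / D ^ 2 + 80 / ((R : ℝ) * q) ^ 2 with hcf
  have hcf0 : 0 ≤ cf := by positivity
  have hFI : ∑ a ∈ red q, ∫ x in s, ‖F a x‖ ^ 2 ≤ cf * B0 := by
    calc ∑ a ∈ red q, ∫ x in s, ‖F a x‖ ^ 2 ≤ ∑ a ∈ red q, ∫ x in s,
        (2 / D ^ 2 * ‖P a x‖ ^ 2 + 80 / ((R : ℝ) * q) ^ 2 * ‖P' a x‖ ^ 2) := by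
          apply sum_le_sum
          intro a _
          apply integral_mono_of_nonneg
          · exact Filter.Eventually.of_forall fun x => by positivity
          · exact ((hPi a).const_mul _).add ((hPi' a).const_mul _)
          · exact Filter.Eventually.of_forall fun x => hFb a x
      _ = 2 / D ^ 2 * (∑ a ∈ red q, ∫ x in s, ‖P a x‖ ^ 2) +
          80 / ((R : ℝ) * q) ^ 2 * (∑ a ∈ red q, ∫ x in s, ‖P' a x‖ ^ 2) := by
          rw [mul_sum, mul_sum, ← sum_add_distrib]
          apply sum_congr rfl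
          intro a _
          rw [integral_add ((hPi a).const_mul _) ((hPi' a).const_mul _), integral_const_mul,
            integral_const_mul]
      _ ≤ 2 / D ^ 2 * B0 + 80 / ((R : ℝ) * q) ^ 2 * B0 := by gcongr
      _ = _ := by rw [hcf]; ring
  apply cs_arith S A (cf * B0) hA0 (sum_nonneg fun _ _ => norm_nonneg _) (by positivity)
  intro l hl
  have h3 : ∀ a, 2 * ∫ x in s, |Er q a x| * ‖F a x‖ ≤ l * (∫ x in s, Er q a x ^ 2) + (1 / l) *
      ∫ x in s, ‖F a x‖ ^ 2 := by
    intro a
    rw [← integral_const_mul, ← integral_const_mul, ← integral_const_mul, ← integral_add]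
    · apply integral_mono_of_nonneg
      · exact Filter.Eventually.of_forall fun x => by positivity
      · exact ((hEr2 a).const_mul l).add ((hF2 a).const_mul (1 / l))
      · refine Filter.Eventually.of_forall fun x => ?_
        simp only
        have h4 : 0 ≤ (l * |Er q a x| - ‖F a x‖) ^ 2 / l := by positivity
        have h5 : (l * |Er q a x| - ‖F a x‖) ^ 2 / l = l * Er q a x ^ 2 + 1 / l * ‖F a x‖ ^ 2 -
            2 * (|Er q a x| * ‖F a x‖) := by
          rw [← sq_abs (Er q a x)]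
          field_simp
          ring
        linarith
    · exact (hEr2 a).const_mul l
    · exact (hF2 a).const_mul (1 / l)
  have h4 : 2 * ∑ a ∈ red q, ∫ x in s, |Er q a x| * ‖F a x‖ ≤ l * A + (1 / l) * (cf * B0) := by
    calc 2 * ∑ a ∈ red q, ∫ x in s, |Er q a x| * ‖F a x‖ ≤ ∑ a ∈ red q,
        (l * (∫ x in s, Er q a x ^ 2) + (1 / l) * ∫ x in s, ‖F a x‖ ^ 2) := by
          rw [mul_sum]
          exact sum_le_sum fun a _ => h3 a
      _ = l * A + (1 / l) * ∑ a ∈ red q, ∫ x in s, ‖F a x‖ ^ 2 := by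
          rw [sum_add_distrib, ← mul_sum, ← mul_sum, hAs]
      _ ≤ _ := by gcongr
  have h5 : (1 / l) * (cf * B0) = cf * B0 / l := by ring
  rw [h5] at h4
  linarith

end Pool.Agent.D0H52.EM
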