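import Pool.Agent.D0H44.EM.Stm
import Pool.Agent.D0H44.EL.Nrm
import Pool.Agent.H336R2.V.Raman

/-! Project EM: the norm of the test functions (helper52). -/

set_option autoImplicit false

open Finset MeasureTheory

namespace Pool.Agent.D0H52.EM

open H343 (ex)
open Pool.Agent.D0H44.EM

theorem dvd_of_inv {q c d r s : ℕ} (hr : q ∣ c * r + 1) (hs : q ∣ d * s + 1)
    (h : (q : ℤ) ∣ (c : ℤ) - d) : (q : ℤ) ∣ (r : ℤ) - s := by
  have hr' : (q : ℤ) ∣ (c : ℤ) * r + 1 := by exact_mod_cast hr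
  have hs' : (q : ℤ) ∣ (d : ℤ) * s + 1 := by exact_mod_cast hs
  -- c (r - s) ≡ 0
  have h1 : (q : ℤ) ∣ (c : ℤ) * (r - s) := by
    have e : (c : ℤ) * (r - s) = (c * r + 1) - (d * s + 1) - (c - d) * s := by ring
    rw [e]
    exact dvd_sub (dvd_sub hr' hs') (Dvd.dvd.mul_right h _)
  -- r - s = -(c r + 1 ...) trick: (r - s) = (c r + 1)(r - s) - r c (r - s)
  have e2 : (r : ℤ) - s = (c * r + 1) * (r - s) - r * (c * (r - s)) := by ring
  rw [e2]
  exact dvd_sub (Dvd.dvd.mul_right hr' _) (Dvd.dvd.mul_left h1 _)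

theorem nrm : S_NRM := by
  intro q G R c b X hq hG hc hb hX
  have hq0 : (0 : ℝ) < q := by exact_mod_cast hq
  have h1 : ∀ (a : ℕ) (x : ℝ),
      ((‖∑ r ∈ G, b r * (ex (((a * c r : ℕ) : ℝ) / q) * ex (x / ((r * q : ℕ) : ℝ)))‖ ^ 2 : ℝ) : ℂ) =
      ∑ r ∈ G, ∑ s ∈ G, (b r * (starRingEnd ℂ) (b s)) *
        (ex ((a : ℝ) * (((c r : ℤ) - c s : ℤ) : ℝ) / q) *
          ex ((1 / ((r * q : ℕ) : ℝ) - 1 / ((s * q : ℕ) : ℝ)) * x)) := by
    intro a x
    push_cast
    rw [← Complex.mul_conj', map_sum, sum_mul_sum]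
    apply sum_congr rfl
    intro r _
    apply sum_congr rfl
    intro s _
    rw [map_mul, map_mul, Pool.Agent.D0H44.EL.ex_conj, Pool.Agent.D0H44.EL.ex_conj]
    have e1 : ex ((a : ℝ) * ((c r : ℝ) - (c s : ℝ)) / q) =
        ex (((a : ℝ) * (c r : ℝ)) / q) * ex (-(((a : ℝ) * (c s : ℝ)) / q)) := by
      rw [← H343.Gauss.ex_add]
      congr 1
      ring
    have e2 : ex ((1 / ((r : ℝ) * q) - 1 / ((s : ℝ) * q)) * x) =
        ex (x / ((r : ℝ) * q)) * ex (-(x / ((s : ℝ) * q))) := by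
      rw [← H343.Gauss.ex_add]
      congr 1
      ring
    rw [e1, e2]
    ring
  have h2 : ∀ a : ℕ, ((∫ x in (0 : ℝ)..X,
      ‖∑ r ∈ G, b r * (ex (((a * c r : ℕ) : ℝ) / q) * ex (x / ((r * q : ℕ) : ℝ)))‖ ^ 2 : ℝ) : ℂ) =
      ∑ r ∈ G, ∑ s ∈ G, (b r * (starRingEnd ℂ) (b s)) *
        (ex ((a : ℝ) * (((c r : ℤ) - c s : ℤ) : ℝ) / q) *
          ∫ x in (0 : ℝ)..X, ex ((1 / ((r * q : ℕ) : ℝ) - 1 / ((s * q : ℕ) : ℝ)) * x)) := by
    intro a
    rw [← intervalIntegral.integral_ofReal]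
    simp_rw [h1]
    have hci : ∀ r s : ℕ, IntervalIntegrable (fun x : ℝ => (b r * (starRingEnd ℂ) (b s)) *
        (ex ((a : ℝ) * (((c r : ℤ) - c s : ℤ) : ℝ) / q) *
          ex ((1 / ((r * q : ℕ) : ℝ) - 1 / ((s * q : ℕ) : ℝ)) * x))) volume 0 X := by
      intro r s
      apply Continuous.intervalIntegrable
      unfold H343.ex
      fun_prop
    rw [intervalIntegral.integral_finsetSum]
    · apply sum_congr rfl
      intro r _
      rw [intervalIntegral.integral_finsetSum]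
      · apply sum_congr rfl
        intro s _
        rw [intervalIntegral.integral_const_mul, intervalIntegral.integral_const_mul]
      · intro s _
        exact hci r s
    · intro r _
      apply Continuous.intervalIntegrable
      apply continuous_finsetSum
      intro s _
      unfold H343.ex
      fun_prop
  have h2s : ((∑ a ∈ range q, ∫ x in (0 : ℝ)..X,
      ‖∑ r ∈ G, b r * (ex (((a * c r : ℕ) : ℝ) / q) * ex (x / ((r * q : ℕ) : ℝ)))‖ ^ 2 : ℝ) : ℂ) =
      ∑ r ∈ G, ∑ s ∈ G, (b r * (starRingEnd ℂ) (b s)) *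
        ((if (q : ℤ) ∣ (c r : ℤ) - c s then (q : ℂ) else 0) *
          ∫ x in (0 : ℝ)..X, ex ((1 / ((r * q : ℕ) : ℝ) - 1 / ((s * q : ℕ) : ℝ)) * x)) := by
    push_cast
    have h3 : ∀ a ∈ range q, ((∫ x in (0 : ℝ)..X,
      ‖∑ r ∈ G, b r * (ex (((a : ℝ) * (c r : ℝ)) / q) * ex (x / ((r : ℝ) * q)))‖ ^ 2 : ℝ) : ℂ) =
      ∑ r ∈ G, ∑ s ∈ G, (b r * (starRingEnd ℂ) (b s)) *
        (ex ((a : ℝ) * (((c r : ℤ) - c s : ℤ) : ℝ) / q) *
          ∫ x in (0 : ℝ)..X, ex ((1 / ((r * q : ℕ) : ℝ) - 1 / ((s * q : ℕ) : ℝ)) * x)) := by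
      intro a _
      have := h2 a
      push_cast at this ⊢
      exact this
    rw [sum_congr rfl h3, sum_comm]
    apply sum_congr rfl
    intro r _
    rw [sum_comm]
    apply sum_congr rfl
    intro s _
    rw [← mul_sum, ← sum_mul, H336V.RamanAux.geom q hq ((c r : ℤ) - c s)]
    push_cast
    rfl
  have h3 : ∀ r ∈ G, ∀ s ∈ G, ‖(b r * (starRingEnd ℂ) (b s)) *
        ((if (q : ℤ) ∣ (c r : ℤ) - c s then (q : ℂ) else 0) *
          ∫ x in (0 : ℝ)..X, ex ((1 / ((r * q : ℕ) : ℝ) - 1 / ((s * q : ℕ) : ℝ)) * x))‖ ≤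
        q * ((if r = s then X else 0) + 4 * (R : ℝ) ^ 2) := by
    intro r hr s hs
    have hcc : ‖b r * (starRingEnd ℂ) (b s)‖ ≤ 1 := by
      rw [norm_mul, RCLike.norm_conj]
      exact mul_le_one₀ (hb r hr) (norm_nonneg _) (hb s hs)
    have hpos : 0 ≤ (if r = s then X else 0) + 4 * (R : ℝ) ^ 2 := by
      split_ifs <;> positivity
    rw [norm_mul]
    have hI : ‖(if (q : ℤ) ∣ (c r : ℤ) - c s then (q : ℂ) else 0) *
          ∫ x in (0 : ℝ)..X, ex ((1 / ((r * q : ℕ) : ℝ) - 1 / ((s * q : ℕ) : ℝ)) * x)‖ ≤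
        q * ((if r = s then X else 0) + 4 * (R : ℝ) ^ 2) := by
      by_cases hd : (q : ℤ) ∣ (c r : ℤ) - c s
      · rw [if_pos hd, norm_mul, Complex.norm_natCast]
        apply mul_le_mul_of_nonneg_left _ hq0.le
        by_cases h : r = s
        · rw [if_pos h]
          refine (intervalIntegral.norm_integral_le_of_norm_le_const (C := 1) ?_).trans ?_
          · intro x _
            rw [H343.Gauss.norm_ex]
          · rw [one_mul, sub_zero, abs_of_nonneg hX]
            have : 0 ≤ 4 * (R : ℝ) ^ 2 := by positivity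
            linarith
        · rw [if_neg h, zero_add]
          obtain ⟨r1, r2⟩ := hG r hr
          obtain ⟨s1, s2⟩ := hG s hs
          have hr0 : (0 : ℝ) < r := by exact_mod_cast (by omega : 0 < r)
          have hs0 : (0 : ℝ) < s := by exact_mod_cast (by omega : 0 < s)
          have hdrs : (q : ℤ) ∣ (s : ℤ) - r := by
            have := dvd_of_inv (hc r hr) (hc s hs) hd
            rw [← dvd_neg] at this
            rwa [neg_sub] at this
          have hqrs : (q : ℝ) ≤ |(s : ℝ) - r| := by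
            have hne : (s : ℤ) - r ≠ 0 := by
              intro h'
              apply h
              omega
            have h5 := Int.le_of_dvd (abs_pos.2 hne) ((dvd_abs _ _).2 hdrs)
            exact_mod_cast h5
          have e1 : (1 / ((r * q : ℕ) : ℝ) - 1 / ((s * q : ℕ) : ℝ)) = ((s : ℝ) - r) / (r * s * q) := by
            push_cast
            field_simp
          have hne0 : ((s : ℝ) - r) ≠ 0 := by
            intro h'
            rw [h', abs_zero] at hqrs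
            linarith
          have hα : (1 / ((r * q : ℕ) : ℝ) - 1 / ((s * q : ℕ) : ℝ)) ≠ 0 := by
            rw [e1]
            apply div_ne_zero hne0
            positivity
          refine (Pool.Agent.D0H44.EL.ex_int_le _ X hα).trans ?_
          rw [e1, abs_div, abs_of_pos (by positivity : (0 : ℝ) < r * s * q)]
          have hr2 : (r : ℝ) ≤ 2 * R := by exact_mod_cast r2
          have hs2 : (s : ℝ) ≤ 2 * R := by exact_mod_cast s2
          have hpi := Real.pi_gt_three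
          have hrs2 : (r : ℝ) * s ≤ 4 * (R : ℝ) ^ 2 := by
            calc (r : ℝ) * s ≤ (2 * R) * (2 * R) := by gcongr
              _ = _ := by ring
          have habs : 0 < |(s : ℝ) - r| := abs_pos.2 hne0
          have e2 : 1 / (Real.pi * (|(s : ℝ) - r| / (r * s * q))) =
              (r * s) * (q / (Real.pi * |(s : ℝ) - r|)) := by
            field_simp
          rw [e2]
          have h6 : (q : ℝ) / (Real.pi * |(s : ℝ) - r|) ≤ 1 := by
            rw [div_le_one (by positivity)]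
            nlinarith
          calc (r * s : ℝ) * (q / (Real.pi * |(s : ℝ) - r|)) ≤ (r * s : ℝ) * 1 := by gcongr
            _ ≤ _ := by rw [mul_one]; exact hrs2
      · rw [if_neg hd, zero_mul, norm_zero]
        positivity
    calc ‖b r * (starRingEnd ℂ) (b s)‖ * ‖(if (q : ℤ) ∣ (c r : ℤ) - c s then (q : ℂ) else 0) *
          ∫ x in (0 : ℝ)..X, ex ((1 / ((r * q : ℕ) : ℝ) - 1 / ((s * q : ℕ) : ℝ)) * x)‖ ≤
        1 * ‖(if (q : ℤ) ∣ (c r : ℤ) - c s then (q : ℂ) else 0) *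
          ∫ x in (0 : ℝ)..X, ex ((1 / ((r * q : ℕ) : ℝ) - 1 / ((s * q : ℕ) : ℝ)) * x)‖ := by gcongr
      _ ≤ _ := by rw [one_mul]; exact hI
  have h4 : (∑ a ∈ range q, ∫ x in (0 : ℝ)..X,
      ‖∑ r ∈ G, b r * (ex (((a * c r : ℕ) : ℝ) / q) * ex (x / ((r * q : ℕ) : ℝ)))‖ ^ 2) ≤
      ∑ r ∈ G, ∑ s ∈ G, q * ((if r = s then X else 0) + 4 * (R : ℝ) ^ 2) := by
    calc (∑ a ∈ range q, ∫ x in (0 : ℝ)..X,
      ‖∑ r ∈ G, b r * (ex (((a * c r : ℕ) : ℝ) / q) * ex (x / ((r * q : ℕ) : ℝ)))‖ ^ 2) ≤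
        ‖((∑ a ∈ range q, ∫ x in (0 : ℝ)..X,
      ‖∑ r ∈ G, b r * (ex (((a * c r : ℕ) : ℝ) / q) * ex (x / ((r * q : ℕ) : ℝ)))‖ ^ 2 : ℝ) : ℂ)‖ := by
          rw [Complex.norm_real]
          exact le_abs_self _
      _ ≤ ∑ r ∈ G, ∑ s ∈ G, ‖(b r * (starRingEnd ℂ) (b s)) *
        ((if (q : ℤ) ∣ (c r : ℤ) - c s then (q : ℂ) else 0) *
          ∫ x in (0 : ℝ)..X, ex ((1 / ((r * q : ℕ) : ℝ) - 1 / ((s * q : ℕ) : ℝ)) * x))‖ := by
          rw [h2s]
          refine (norm_sum_le _ _).trans (sum_le_sum fun r _ => norm_sum_le _ _)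
      _ ≤ _ := sum_le_sum fun r hr => sum_le_sum fun s hs => h3 r hr s hs
  refine h4.trans (le_of_eq ?_)
  simp_rw [← mul_sum, sum_add_distrib, sum_ite_eq]
  have e3 : ∑ r ∈ G, (if r ∈ G then X else 0) = G.card * X := by
    rw [← nsmul_eq_mul, ← sum_const]
    exact sum_congr rfl fun r hr => by rw [if_pos hr]
  rw [e3]
  simp only [sum_const, nsmul_eq_mul]
  ring

end Pool.Agent.D0H52.EM
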